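import Mathlib

namespace Pool.Agent.Results.MP_ed8104_gt.IffAlephOne

open Set Topology Filter
open Cardinal hiding univ

/-- The dominating number. -/
noncomputable def dNum : Cardinal.{0} :=
  sInf {c | ∃ D : Set (ℕ → ℕ), (∀ g : ℕ → ℕ, ∃ f ∈ D, ∀ᶠ n in atTop, g n ≤ f n) ∧ Cardinal.mk D = c}

/-- An open cover of `X`. -/
def Cover {X : Type} [TopologicalSpace X] (U : Set (Set X)) : Prop :=
  (∀ S ∈ U, IsOpen S) ∧ ⋃₀ U = univ

/-- `V n` is a finite subset of `U n` for every `n`. -/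
def Selection {X : Type} (U V : ℕ → Set (Set X)) : Prop := ∀ n, V n ⊆ U n ∧ (V n).Finite

/-- Weakly Lindelöf. -/
def WeaklyLindelof (X : Type) [TopologicalSpace X] : Prop :=
  ∀ U : Set (Set X), Cover U → ∃ V ⊆ U, V.Countable ∧ Dense (⋃₀ V)

/-- Weakly Menger. -/
def WeaklyMenger (X : Type) [TopologicalSpace X] : Prop :=
  ∀ U : ℕ → Set (Set X), (∀ n, Cover (U n)) → ∃ V, Selection U V ∧ Dense (⋃ n, ⋃₀ V n)

/-- Weakly Scheepers in the sense of Sakai. -/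
def WeaklyScheepers (X : Type) [TopologicalSpace X] : Prop :=
  ∀ U : ℕ → Set (Set X), (∀ n, Cover (U n)) → ∃ V, Selection U V ∧
    ∀ F : Set (Set X), F.Finite → (∀ S ∈ F, IsOpen S ∧ S.Nonempty) →
      {n | ∀ S ∈ F, (S ∩ ⋃₀ V n).Nonempty}.Infinite

/-- Weakly Scheepers in the sense of Kocinac. -/
def WeaklyScheepersK (X : Type) [TopologicalSpace X] : Prop :=
  ∀ U : ℕ → Set (Set X), (∀ n, Cover (U n)) → ∃ Y : Set X, Dense Y ∧ ∃ V, Selection U V ∧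
    ∀ F : Set X, F ⊆ Y → F.Finite → {n | F ⊆ ⋃₀ V n}.Infinite

lemma K_S {X : Type} [TopologicalSpace X] (h : WeaklyScheepersK X) : WeaklyScheepers X := by
  intro U hU
  obtain ⟨Y, hY, V, h1, h2⟩ := h U hU
  refine ⟨V, h1, fun F hF H => ?_⟩
  choose p p1 p2 using fun S : F => hY.inter_open_nonempty S (H S S.2).1 (H S S.2).2
  have := hF.to_subtype
  refine (h2 (range p) (by rintro _ ⟨S, rfl⟩; exact p2 S) (finite_range _)).mono fun n hn S hS => ?_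
  exact ⟨p ⟨S, hS⟩, p1 ⟨S, hS⟩, hn ⟨_, rfl⟩⟩

lemma S_M {X : Type} [TopologicalSpace X] (h : WeaklyScheepers X) : WeaklyMenger X := by
  intro U hU
  obtain ⟨V, h1, h2⟩ := h U hU
  refine ⟨V, h1, dense_iff_inter_open.2 fun S s1 s2 => ?_⟩
  obtain ⟨n, hn⟩ := (h2 {S} (finite_singleton _) (by rintro _ rfl; exact ⟨s1, s2⟩)).nonempty
  exact (hn S rfl).mono (inter_subset_inter_right _ (subset_iUnion (fun n => ⋃₀ V n) n))

lemma count_K {X : Type} [TopologicalSpace X] [Countable X] : WeaklyScheepersK X := by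
  intro U hU
  obtain ⟨e, he⟩ := exists_injective_nat X
  have : ∀ n (x : X), ∃ S ∈ U n, x ∈ S := fun n x => mem_sUnion.1 ((hU n).2 ▸ mem_univ x)
  choose S s1 s2 using this
  refine ⟨univ, dense_univ, fun n => S n '' (e ⁻¹' Iic n), fun n =>
    ⟨by rintro _ ⟨x, -, rfl⟩; exact s1 n x, ((finite_Iic n).preimage he.injOn).image _⟩,
    fun F _ hF => ?_⟩
  obtain ⟨N, hN⟩ := (hF.image e).bddAbove
  exact (Ici_infinite N).mono fun n hn x hx => ⟨_, ⟨x, (hN ⟨x, hx, rfl⟩).trans hn, rfl⟩, s2 n x⟩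

lemma d_ge : aleph 1 ≤ dNum := by
  refine le_csInf ⟨_, univ, fun g => ⟨g, trivial, Eventually.of_forall fun _ => le_rfl⟩, rfl⟩ ?_
  rintro _ ⟨D, hD, rfl⟩
  rw [aleph_one_le_iff, aleph0_lt_mk_iff, ← not_countable_iff]
  intro hc
  obtain ⟨f0, h0, -⟩ := hD 0
  obtain ⟨f, rfl⟩ := (countable_coe_iff.1 hc).exists_eq_range ⟨f0, h0⟩
  obtain ⟨_, ⟨k, rfl⟩, hk⟩ := hD fun n => (Finset.range (n + 1)).sup (fun k => f k n) + 1
  obtain ⟨n, h1, h2⟩ := (hk.and (eventually_ge_atTop k)).exists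
  have := Finset.le_sup (f := fun k => f k n) (Finset.mem_range.2 (Nat.lt_succ_of_le h2))
  exact absurd (h1.trans this) (Nat.not_succ_le_self _)

abbrev W : Type := (aleph 1).ord.ToType

lemma W_unc : ¬ (univ : Set W).Countable := by
  rw [← le_aleph0_iff_set_countable, mk_univ, not_le, mk_ord_toType]
  exact aleph0_lt_aleph_one

def RF (Z : Set (ℕ × W)) : Prop := ∀ n, {b | (n, b) ∈ Z}.Finite

lemma RF.countable {Z : Set (ℕ × W)} (h : RF Z) : Z.Countable :=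
  (countable_iUnion fun n => ((h n).image (Prod.mk n)).countable).mono
    fun c hc => mem_iUnion.2 ⟨c.1, (mem_image _ _ _).2 ⟨c.2, hc, rfl⟩⟩

lemma RF.union {Z Y : Set (ℕ × W)} (h : RF Z) (h' : RF Y) : RF (Z ∪ Y) := fun n => (h n).union (h' n)

lemma RF.rows {Z : Set (ℕ × W)} (h : RF Z) (N : ℕ) : (Z ∩ {c | c.1 < N}).Finite :=
  ((finite_lt_nat N).biUnion fun n _ => (h n).image (Prod.mk n)).subset
    fun c hc => mem_iUnion₂.2 ⟨c.1, hc.2, c.2, hc.1, rfl⟩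

lemma RF_fin {Z : Set (ℕ × W)} (h : Z.Finite) : RF Z := fun n =>
  h.preimage (Prod.mk_right_injective n).injOn

def X : Type := {x : Set (ℕ × W) // ∃ s : Finset (ℕ × W), ∃ b : W, x = (s : Set (ℕ × W)) ∪ {c : ℕ × W | c.2 = b}}

def N (s Z : Set (ℕ × W)) : Set X := {y | s ⊆ y.1 ∧ Disjoint y.1 Z}

lemma N_ne {s Z : Set (ℕ × W)} (hs : s.Finite) (hZ : RF Z) (h : Disjoint s Z) :
    (N s Z).Nonempty := by
  have : ∃ b, b ∉ Prod.snd '' Z := by
    by_contra hn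
    push Not at hn
    exact W_unc (eq_univ_of_forall hn ▸ hZ.countable.image _)
  obtain ⟨b, hb⟩ := this
  refine ⟨⟨s ∪ {c | c.2 = b}, hs.toFinset, b, by simp⟩, subset_union_left,
    disjoint_union_left.2 ⟨h, disjoint_left.2 fun c h1 h2 => hb ⟨c, h2, h1⟩⟩⟩

instance : TopologicalSpace X where
  IsOpen U := ∀ x ∈ U, ∃ s Z, s.Finite ∧ RF Z ∧ x ∈ N s Z ∧ N s Z ⊆ U
  isOpen_univ := fun _ _ => ⟨∅, ∅, finite_empty, RF_fin finite_empty, ⟨by simp, by simp⟩,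
    subset_univ _⟩
  isOpen_inter S T hS hT x hx := by
    obtain ⟨s, Z, a1, a2, a3, a4⟩ := hS x hx.1
    obtain ⟨t, Y, b1, b2, b3, b4⟩ := hT x hx.2
    exact ⟨s ∪ t, Z ∪ Y, a1.union b1, a2.union b2,
      ⟨union_subset a3.1 b3.1, disjoint_union_right.2 ⟨a3.2, b3.2⟩⟩, fun y hy =>
      ⟨a4 ⟨subset_union_left.trans hy.1, (disjoint_union_right.1 hy.2).1⟩,
       b4 ⟨subset_union_right.trans hy.1, (disjoint_union_right.1 hy.2).2⟩⟩⟩
  isOpen_sUnion s hs := by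
    rintro x ⟨t, ht, hx⟩
    obtain ⟨s, Z, a1, a2, a3, a4⟩ := hs t ht x hx
    exact ⟨s, Z, a1, a2, a3, a4.trans (subset_sUnion_of_mem ht)⟩

lemma open_iff {U : Set X} :
    IsOpen U ↔ ∀ x ∈ U, ∃ s Z, s.Finite ∧ RF Z ∧ x ∈ N s Z ∧ N s Z ⊆ U := Iff.rfl

lemma N_open {s Z : Set (ℕ × W)} (hs : s.Finite) (hZ : RF Z) : IsOpen (N s Z) :=
  open_iff.2 fun _ hx => ⟨s, Z, hs, hZ, hx, Subset.rfl⟩

lemma N_closed (s Z : Set (ℕ × W)) : IsClosed (N s Z) := by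
  refine ⟨open_iff.2 fun x hx => ?_⟩
  by_cases h : s ⊆ x.1
  · obtain ⟨c, c1, c2⟩ := not_disjoint_iff.1 fun h2 => hx ⟨h, h2⟩
    exact ⟨{c}, ∅, finite_singleton _, RF_fin finite_empty, ⟨by simpa, by simp⟩,
      fun y hy h3 => disjoint_left.1 h3.2 (hy.1 rfl) c2⟩
  · obtain ⟨c, c1, c2⟩ := not_subset.1 h
    exact ⟨∅, {c}, finite_empty, RF_fin (finite_singleton _), ⟨by simp, by simpa⟩,
      fun y hy h3 => disjoint_left.1 hy.2 (h3.1 c1) rfl⟩

lemma tych : T35Space X := by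
  have h0 : T0Space X := by
    refine t0Space_iff_inseparable X |>.2 fun x y h => Subtype.ext (Set.ext fun c => ?_)
    have := h.mem_open_iff (N_open (s := {c}) (finite_singleton _) (RF_fin finite_empty))
    simpa [N] using this
  have h1 : CompletelyRegularSpace X := by
    apply CompletelyRegularSpace.of_isTopologicalBasis_clopens
    refine TopologicalSpace.isTopologicalBasis_of_isOpen_of_nhds (fun _ s => s.isOpen) ?_
    intro F S hF hS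
    obtain ⟨s, Z, a1, a2, a3, a4⟩ := open_iff.1 hS F hF
    exact ⟨N s Z, ⟨N_closed _ _, N_open a1 a2⟩, a3, a4⟩
  exact @T35Space.mk _ _ h0 h1

lemma X_card : Cardinal.mk X ≤ aleph 1 := by
  have : Infinite W := infinite_univ_iff.1 fun h => W_unc h.countable
  have := mk_le_of_surjective (f := fun p : Finset (ℕ × W) × W =>
    (⟨(p.1 : Set (ℕ × W)) ∪ {c : ℕ × W | c.2 = p.2}, p.1, p.2, rfl⟩ : X)) (by
      rintro ⟨_, s, b, rfl⟩; exact ⟨(s, b), rfl⟩)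
  refine this.trans ?_
  simp [mk_finset_of_infinite]

lemma not_M : ¬ WeaklyMenger X := by
  intro h
  obtain ⟨V, h1, h2⟩ := h (fun n => range fun b : W => N {(n, b)} ∅) fun n =>
    ⟨by rintro _ ⟨b, rfl⟩; exact N_open (finite_singleton _) (RF_fin finite_empty),
     eq_univ_of_forall (by
      rintro ⟨_, s, b, rfl⟩
      exact ⟨_, ⟨b, rfl⟩, by simp, by simp⟩)⟩
  have : ∀ n, ∃ T : Set W, T.Finite ∧ V n ⊆ (fun b : W => N {(n, b)} ∅) '' T := fun n => by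
    obtain ⟨T, -, t1, t2⟩ := (exists_subset_image_finite_and (f := fun b : W => N {(n, b)} ∅)
      (s := univ) (p := fun W => V n ⊆ W)).1 ⟨V n, by simpa using (h1 n).1, (h1 n).2, Subset.rfl⟩
    exact ⟨T, t1, t2⟩
  choose T t1 t2 using this
  have z : RF {c | c.2 ∈ T c.1} := t1
  obtain ⟨x, x1, x2⟩ := h2.inter_open_nonempty _ (N_open finite_empty z)
    (N_ne finite_empty z (by simp))
  obtain ⟨n, S, hS, hx⟩ := mem_iUnion.1 x2
  obtain ⟨b, hb, rfl⟩ := t2 n hS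
  exact disjoint_left.1 x1.2 (hx.1 rfl) hb

lemma wl : WeaklyLindelof X := by
  intro U hU
  let Q : ℕ × Set (ℕ × W) × Set (ℕ × W) → Set (ℕ × W) × Set (ℕ × W) × Set X → Prop := fun τ w =>
    w.1.Finite ∧ RF w.2.1 ∧ w.2.2 ∈ U ∧ N w.1 w.2.1 ⊆ w.2.2 ∧ Disjoint w.1 w.2.1 ∧
      w.1 ⊆ {c | c.1 < τ.1} ∧ Disjoint τ.2.1 w.2.1 ∧ Disjoint w.1 τ.2.2
  choose! w hw using fun τ (h : ∃ w, Q τ w) => h
  let ty : Set (ℕ × W) → Set (ℕ × Set (ℕ × W) × Set (ℕ × W)) := fun M =>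
    {τ | (∃ w, Q τ w) ∧ (τ.2.1.Finite ∧ τ.2.1 ⊆ M) ∧ τ.2.2.Finite ∧ τ.2.2 ⊆ M}
  have tc : ∀ M, M.Countable → (ty M).Countable := fun M hM =>
    ((countable_univ (α := ℕ)).prod ((countable_ofPred_finite_subset hM).prod
      (countable_ofPred_finite_subset hM))).mono fun τ h => mem_prod.2 ⟨mem_univ _, mem_prod.2 h.2⟩
  let M : ℕ → Set (ℕ × W) := fun n =>
    Nat.rec ∅ (fun _ m => m ∪ ⋃ τ ∈ ty m, (w τ).1 ∪ (w τ).2.1) n
  have e : ∀ n, M (n + 1) = M n ∪ ⋃ τ ∈ ty (M n), (w τ).1 ∪ (w τ).2.1 := fun _ => rfl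
  have mc : ∀ n, (M n).Countable := by
    intro n
    induction n with
    | zero => exact countable_empty
    | succ n ih =>
      exact ih.union ((tc _ ih).biUnion fun τ h =>
        (hw τ h.1).1.countable.union (hw τ h.1).2.1.countable)
  have mono : Monotone M := monotone_nat_of_le_succ fun n => subset_union_left
  have late : ∀ a : Set (ℕ × W), a.Finite → ∃ n, a ∩ (⋃ n, M n) ⊆ M n := fun a ha => by
    have : ∀ c ∈ a ∩ (⋃ n, M n), ∀ᶠ n in atTop, c ∈ M n := fun c hc => by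
      obtain ⟨n, hn⟩ := mem_iUnion.1 hc.2
      exact (eventually_ge_atTop n).mono fun m hm => mono hm hn
    exact ((eventually_all_finite (ha.inter_of_left _)).2 this).exists
  refine ⟨(fun τ => (w τ).2.2) '' ty (⋃ n, M n), by rintro _ ⟨τ, h, rfl⟩; exact (hw τ h.1).2.2.1,
    (tc _ (countable_iUnion mc)).image _, dense_iff_inter_open.2 fun O hO ⟨x, hx⟩ => ?_⟩
  obtain ⟨S, hS, hxS⟩ : x ∈ ⋃₀ U := hU.2 ▸ mem_univ x
  obtain ⟨s, Z, a1, a2, a3, a4⟩ := open_iff.1 (hO.inter (hU.1 S hS)) x ⟨hx, hxS⟩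
  obtain ⟨k, hk⟩ := (a1.image Prod.fst).bddAbove
  have dsZ : Disjoint s Z := a3.2.mono_left a3.1
  let τ : ℕ × Set (ℕ × W) × Set (ℕ × W) :=
    (k + 1, s ∩ (⋃ n, M n), (Z ∩ {c | c.1 < k + 1}) ∩ (⋃ n, M n))
  have q : ∃ w, Q τ w := ⟨(s, Z, S), a1, a2, hS, a4.trans inter_subset_right, dsZ,
    fun c hc => Nat.lt_succ_of_le (hk ⟨c, hc, rfl⟩), dsZ.mono_left inter_subset_left,
    dsZ.mono_right (inter_subset_left.trans inter_subset_left)⟩
  obtain ⟨n1, l1⟩ := late s a1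
  obtain ⟨n2, l2⟩ := late _ (a2.rows (k + 1))
  have t1 : τ ∈ ty (M (max n1 n2)) := ⟨q, ⟨a1.inter_of_left _, l1.trans (mono (le_max_left _ _))⟩,
    (a2.rows _).inter_of_left _, l2.trans (mono (le_max_right _ _))⟩
  have sub : (w τ).1 ∪ (w τ).2.1 ⊆ ⋃ n, M n := fun c hc =>
    mem_iUnion.2 ⟨max n1 n2 + 1, Or.inr (mem_iUnion₂.2 ⟨τ, t1, hc⟩)⟩
  obtain ⟨b1, b2, b3, b4, b5, b6, b7, b8⟩ := hw τ q
  obtain ⟨y, y1, y2⟩ := N_ne (a1.union b1) (a2.union b2) (disjoint_union_left.2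
    ⟨disjoint_union_right.2 ⟨dsZ, disjoint_left.2 fun c h1 h2 =>
        disjoint_left.1 b7 ⟨h1, sub (Or.inr h2)⟩ h2⟩,
      disjoint_union_right.2 ⟨disjoint_left.2 fun c h1 h2 =>
        disjoint_left.1 b8 h1 ⟨⟨h2, b6 h1⟩, sub (Or.inl h1)⟩, b5⟩⟩)
  refine ⟨y, (a4 ⟨subset_union_left.trans y1, (disjoint_union_right.1 y2).1⟩).1, _,
    ⟨τ, ⟨q, ⟨a1.inter_of_left _, inter_subset_right⟩, (a2.rows _).inter_of_left _,
      inter_subset_right⟩, rfl⟩, b4 ⟨subset_union_right.trans y1, (disjoint_union_right.1 y2).2⟩⟩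

theorem result : List.TFAE
    [dNum = aleph 1,
     ∀ (Y : Type) [TopologicalSpace Y], WeaklyLindelof Y → Cardinal.mk Y < dNum → WeaklyScheepersK Y,
     ∀ (Y : Type) [TopologicalSpace Y], WeaklyLindelof Y → Cardinal.mk Y < dNum → WeaklyScheepers Y,
     ∀ (Y : Type) [TopologicalSpace Y], WeaklyLindelof Y → Cardinal.mk Y < dNum → WeaklyMenger Y,
     ∀ (Y : Type) [TopologicalSpace Y], T35Space Y → WeaklyLindelof Y → Cardinal.mk Y < dNum →
       WeaklyMenger Y] := by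
  tfae_have 1 → 2 := fun h Y _ _ hc => by
    rw [h, lt_aleph_one_iff, mk_le_aleph0_iff] at hc
    exact count_K
  tfae_have 2 → 3 := fun h Y _ a b => K_S (h Y a b)
  tfae_have 3 → 4 := fun h Y _ a b => S_M (h Y a b)
  tfae_have 4 → 5 := fun h Y _ _ a b => h Y a b
  tfae_have 5 → 1 := fun h => by
    by_contra hn
    exact not_M (h X tych wl (X_card.trans_lt (lt_of_le_of_ne d_ge (Ne.symm hn))))
  tfae_finish

end Pool.Agent.Results.MP_ed8104_gt.IffAlephOne
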